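import Pool.Agent.helper66.FB.Spec2
import Pool.Agent.helper66.FB.KC

/-! # Module CN: two uniform vertices are connected in the forest rooted at `B` -/

set_option autoImplicit false

open scoped BigOperators Topology
open Filter MeasureTheory

namespace Pool.Agent.helper66.FB

open Finset
open Pool.Agent.helper72.UT (IsFor dep pth rt fors Reg lz mem_fors fors_nonempty dep_mem rt_mem
  dep_not_mem rt_not_mem self_mem_pth pth_length)
open Pool.Agent.helper20.HP
open Pool.Agent.helper90.FN (EF glue dn sk avJ Hit Cl G3_stmt G4_stmt)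

variable {V : Type} [Fintype V] [DecidableEq V]

lemma CN_EF_mono {G : SimpleGraph V} {B : Finset V} {F F' : (V → V) → ℝ}
    (h : ∀ f ∈ fors G B, F f ≤ F' f) : EF G B F ≤ EF G B F' := by
  unfold EF
  exact div_le_div_of_nonneg_right (Finset.sum_le_sum h) (Nat.cast_nonneg _)

lemma CN_EF_congr {G : SimpleGraph V} {B : Finset V} {F F' : (V → V) → ℝ}
    (h : ∀ f ∈ fors G B, F f = F' f) : EF G B F = EF G B F' := by
  unfold EF
  rw [Finset.sum_congr rfl h]

lemma CN_EF_add (G : SimpleGraph V) (B : Finset V) (F F' : (V → V) → ℝ) :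
    EF G B (fun f => F f + F' f) = EF G B F + EF G B F' := by
  unfold EF
  rw [Finset.sum_add_distrib, add_div]

lemma CN_EF_sub (G : SimpleGraph V) (B : Finset V) (F F' : (V → V) → ℝ) :
    EF G B (fun f => F f - F' f) = EF G B F - EF G B F' := by
  unfold EF
  rw [Finset.sum_sub_distrib, sub_div]

lemma CN_EF_mul (G : SimpleGraph V) (B : Finset V) (c : ℝ) (F : (V → V) → ℝ) :
    EF G B (fun f => c * F f) = c * EF G B F := by
  unfold EF
  rw [← Finset.mul_sum, mul_div_assoc]

lemma CN_EF_sum {ι : Type} (s : Finset ι) (G : SimpleGraph V) (B : Finset V)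
    (F : ι → (V → V) → ℝ) :
    EF G B (fun f => ∑ i ∈ s, F i f) = ∑ i ∈ s, EF G B (F i) := by
  unfold EF
  rw [Finset.sum_comm, Finset.sum_div]

lemma CN_EF_const {G : SimpleGraph V} (hG : G.Connected) {B : Finset V} (hB : B.Nonempty)
    (c : ℝ) : EF G B (fun _ => c) = c := by
  unfold EF
  rw [Finset.sum_const, nsmul_eq_mul]
  have h : (0 : ℝ) < ((fors G B).card : ℝ) := by
    exact_mod_cast Finset.card_pos.2 (fors_nonempty hG hB)
  field_simp

omit [Fintype V] in
lemma CN_iter {C D : Finset V} {q g : V → V} (hcl : Cl C D q) {x : V} (hx : x ∈ D) (i : ℕ) :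
    (glue D q g)^[i] x = q^[i] x ∧ q^[i] x ∈ D := by
  induction i with
  | zero => exact ⟨rfl, hx⟩
  | succ i ih =>
    rw [Function.iterate_succ_apply', Function.iterate_succ_apply', ih.1]
    refine ⟨?_, hcl.map _ ih.2⟩
    unfold glue
    rw [if_pos ih.2]

omit [Fintype V] in
lemma CN_root {G : SimpleGraph V} {D : Finset V} (q : V → V) {g : V → V} (hg : IsFor G D g)
    (y : V) : (glue D q g)^[dep D g y] y = rt D g y := by
  refine hg.ind (P := fun y => (glue D q g)^[dep D g y] y = rt D g y) ?_ ?_ y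
  · intro v hv
    rw [dep_mem hv, rt_mem hv]
    rfl
  · intro v hv ih
    rw [dep_not_mem hv (hg.hit v), rt_not_mem hv (hg.hit v), Function.iterate_succ_apply]
    have h : glue D q g v = g v := by
      unfold glue
      rw [if_neg hv]
    rw [h]
    exact ih

lemma CN_good {G : SimpleGraph V} {B D : Finset V} {f g : V → V} (x y : V) (ℓ : ℕ)
    (hD : D = dn B f x) (hcl : Cl B D f) (hg : g ∈ fors G D)
    (h1 : dep B f x ≤ ℓ) (h2 : dep D g y ≤ ℓ) (h3 : rt D g y ∉ B) :
    ∃ i i', i + i' ≤ 2 * ℓ ∧ (glue D f g)^[i] x = (glue D f g)^[i'] y ∧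
      (glue D f g)^[i] x ∉ B := by
  have hg' := mem_fors.1 hg
  have hz : rt D g y ∈ D := hg'.rt_mem_B y
  have hz2 : rt D g y ∈ pth B f x := by
    have h : rt D g y ∈ dn B f x := hD ▸ hz
    unfold dn at h
    rcases Finset.mem_union.1 h with h | h
    · exact absurd h h3
    · exact List.mem_toFinset.1 h
  obtain ⟨i, hi, hie⟩ : ∃ i, i < dep B f x + 1 ∧ rt D g y = f^[i] x := by
    unfold pth at hz2
    rw [List.mem_iterate] at hz2
    exact hz2
  have hx : x ∈ D := by
    rw [hD]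
    exact Finset.mem_union_right _ (List.mem_toFinset.2 (self_mem_pth x))
  refine ⟨i, dep D g y, by omega, ?_, ?_⟩
  · rw [(CN_iter hcl hx i).1, ← hie, CN_root f hg' y]
  · rw [(CN_iter hcl hx i).1, ← hie]
    exact h3

lemma CN_sumdep (hWI : WI_stmt) (hK3 : K3_stmt) {G : SimpleGraph V} {d : ℕ} {K : HW V}
    (hr : Reg G d) (hp : K.p = lz G d) {D : Finset V} (hD : D.Nonempty) {H j ℓ : ℕ}
    (hH : Hit K D H) (hj : j * H ≤ ℓ) :
    ∑ v, EF G D (fun g => ind (ℓ < dep D g v)) ≤ (Fintype.card V : ℝ) * (1 / 2) ^ j := by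
  have h := hWI V G d K hr hp D hD (fun γ => ind (ℓ + 1 < γ.length)) 1
    (fun γ => by rw [abs_of_nonneg (ind_nonneg _)]; exact ind_le_one _)
  have e : ∑ v, EF G D (fun g => ind (ℓ < dep D g v)) =
      EF G D (fun g => ∑ v, ind (ℓ + 1 < (pth D g v).length)) := by
    rw [CN_EF_sum]
    refine Finset.sum_congr rfl fun v _ => ?_
    refine CN_EF_congr fun g _ => ind_congr ?_
    rw [pth_length]
    omega
  rw [e]
  refine le_of_tendsto' h.tendsto_sum_nat fun N => ?_
  refine le_trans (kws_mono K D N (F' := fun _ l => ind (j * H < l.length)) ?_)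
    (hK3 V K D H hH j N)
  intro y _ l _ _
  refine ind_mono fun hl => ?_
  have h1 := run_length_le [y] l
  simp only [List.length_singleton] at h1
  omega

lemma CN_sumroot (hWI : WI_stmt) (hK3 : K3_stmt) {G : SimpleGraph V} {d : ℕ} {K : HW V}
    (hr : Reg G d) (hp : K.p = lz G d) {D : Finset V} (hD : D.Nonempty) (B : Finset V) {H : ℕ}
    (hH : Hit K D H) (j : ℕ) :
    ∑ v, EF G D (fun g => ind (rt D g v ∈ B)) ≤
      ((j * H : ℕ) + 1) * (B.card : ℝ) + (Fintype.card V : ℝ) * (1 / 2) ^ j := by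
  have h := hWI V G d K hr hp D hD (fun γ => ind (∃ z ∈ B, γ.getLast? = some z)) 1
    (fun γ => by rw [abs_of_nonneg (ind_nonneg _)]; exact ind_le_one _)
  have e : ∑ v, EF G D (fun g => ind (rt D g v ∈ B)) =
      EF G D (fun g => ∑ v, ind (∃ z ∈ B, (pth D g v).getLast? = some z)) := by
    rw [CN_EF_sum]
    refine Finset.sum_congr rfl fun v _ => ?_
    refine CN_EF_congr fun g hg => ind_congr ?_
    rw [(mem_fors.1 hg).getLast_pth v]
    constructor
    · intro h
      exact ⟨_, h, rfl⟩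
    · rintro ⟨z, hz, hz2⟩
      rw [Option.some.inj hz2]
      exact hz
  rw [e]
  refine le_of_tendsto' h.tendsto_sum_nat fun N => ?_
  have h1 : ∑ t ∈ range N, kw K D t (fun y l => ind (∃ z ∈ B, (run [y] l).getLast? = some z)) ≤
      kws K D N (fun y l => ind (y ∈ B) * ind (l.length ≤ j * H) + ind (j * H < l.length)) := by
    refine kws_mono K D N ?_
    intro y hy l _ hl
    have h2 : (run [y] l).getLast? = some y := by
      have h3 : [y] <:+ run [y] l := by
        refine suffix_run (List.suffix_refl _) ?_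
        intro z hz h4
        rw [List.mem_singleton] at h4
        exact hl z hz (h4 ▸ hy)
      obtain ⟨t, ht⟩ := h3
      rw [← ht]
      simp
    have h5 : ind (∃ z ∈ B, (run [y] l).getLast? = some z) = ind (y ∈ B) := by
      refine ind_congr ?_
      rw [h2]
      constructor
      · rintro ⟨z, hz, hz2⟩
        rw [Option.some.inj hz2]
        exact hz
      · intro h
        exact ⟨_, h, rfl⟩
    rw [h5]
    rcases le_or_gt l.length (j * H) with h6 | h6
    · rw [ind_true h6, mul_one]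
      linarith [ind_nonneg (j * H < l.length)]
    · rw [ind_true h6]
      have := mul_nonneg (ind_nonneg (y ∈ B)) (ind_nonneg (l.length ≤ j * H))
      linarith [ind_le_one (y ∈ B)]
  refine le_trans h1 ?_
  rw [kws_add]
  refine add_le_add ?_ (hK3 V K D H hH j N)
  have h2 : ∀ t, kw K D t (fun y l => ind (y ∈ B) * ind (l.length ≤ j * H)) ≤
      ind (t ≤ j * H) * (B.card : ℝ) := by
    intro t
    unfold kw
    have h3 : ∀ y ∈ D, W K t y (fun l => ind (∀ z ∈ l, z ∉ D) *
        (ind (y ∈ B) * ind (l.length ≤ j * H))) ≤ ind (t ≤ j * H) * ind (y ∈ B) := by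
      intro y _
      refine le_trans (W_mono K t y (g := fun _ => ind (t ≤ j * H) * ind (y ∈ B)) ?_)
        (W_const K t y _).le
      intro l hl
      rw [hl]
      have h4 := mul_nonneg (ind_nonneg (y ∈ B)) (ind_nonneg (t ≤ j * H))
      calc ind (∀ z ∈ l, z ∉ D) * (ind (y ∈ B) * ind (t ≤ j * H)) ≤
          1 * (ind (y ∈ B) * ind (t ≤ j * H)) := mul_le_mul_of_nonneg_right (ind_le_one _) h4
        _ = ind (t ≤ j * H) * ind (y ∈ B) := by ring
    refine le_trans (Finset.sum_le_sum h3) ?_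
    rw [← Finset.mul_sum]
    refine mul_le_mul_of_nonneg_left ?_ (ind_nonneg _)
    refine le_trans (Finset.sum_le_sum_of_subset_of_nonneg (Finset.subset_univ D)
      (fun y _ _ => ind_nonneg _)) ?_
    have h5 : ∀ y : V, ind (y ∈ B) = if y ∈ B then (1 : ℝ) else 0 := by
      intro y
      unfold ind
      split_ifs <;> rfl
    simp_rw [h5]
    rw [Finset.sum_ite_mem, Finset.univ_inter, Finset.sum_const, nsmul_eq_mul, mul_one]
  unfold kws
  refine le_trans (Finset.sum_le_sum fun t _ => h2 t) ?_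
  rw [← Finset.sum_mul]
  refine mul_le_mul_of_nonneg_right ?_ (Nat.cast_nonneg _)
  have h6 : ∑ t ∈ range N, ind (t ≤ j * H) ≤ ∑ t ∈ range (j * H + 1), (1 : ℝ) := by
    have h7 : ∑ t ∈ range N, ind (t ≤ j * H) =
        ∑ t ∈ (range N).filter (fun t => t ≤ j * H), (1 : ℝ) := by
      rw [Finset.sum_filter]
      refine Finset.sum_congr rfl fun t _ => ?_
      unfold ind
      split_ifs <;> rfl
    rw [h7]
    refine Finset.sum_le_sum_of_subset_of_nonneg ?_ fun _ _ _ => zero_le_one
    intro t ht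
    rw [Finset.mem_filter] at ht
    rw [Finset.mem_range]
    omega
  refine le_trans h6 ?_
  simp

/-- CN -/
theorem CN (hG3 : G3_stmt) (hG4 : G4_stmt) (hWI : WI_stmt) (hK3 : K3_stmt) : CN_stmt := by
  intro V _ _ G d K hr hp B m H H' j j' ℓ κ hB hH hQ hj hj'
  have hn : (0 : ℝ) < (Fintype.card V : ℝ) := by
    have : Nonempty V := ⟨hB.choose⟩
    exact_mod_cast Fintype.card_pos
  have hDne : ∀ (f : V → V) (x : V), (dn B f x).Nonempty := fun f x => hB.mono subset_union_left
  -- the bad event of the second vertex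
  have step : ∀ x y, 1 - EF G B (fun f => ind (∃ i i', i + i' ≤ 2 * ℓ ∧ f^[i] x = f^[i'] y ∧
      f^[i] x ∉ B)) ≤ EF G B (fun f => ind (ℓ < dep B f x) +
        EF G (dn B f x) (fun g => ind (¬ (dep (dn B f x) g y ≤ ℓ ∧ rt (dn B f x) g y ∉ B)))) := by
    intro x y
    rw [hG3 V G B (fun f => dn B f x) ((hG4 V G B).1 x)
      (fun f hf f' hf' h => ((hG4 V G B).2.1 x f hf f' hf' h).1)]
    have h1 : (1 : ℝ) = EF G B (fun _ => 1) := (CN_EF_const hr.conn hB 1).symm
    rw [h1, ← CN_EF_sub]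
    refine CN_EF_mono fun f hf => ?_
    have h2 : (1 : ℝ) = EF G (dn B f x) (fun _ => 1) := (CN_EF_const hr.conn (hDne f x) 1).symm
    have h3 : ind (ℓ < dep B f x) = EF G (dn B f x) (fun _ => ind (ℓ < dep B f x)) :=
      (CN_EF_const hr.conn (hDne f x) _).symm
    rw [h3, ← CN_EF_add]
    nth_rewrite 1 [h2]
    rw [← CN_EF_sub]
    refine CN_EF_mono fun g hg => ?_
    by_cases hA : ℓ < dep B f x
    · rw [ind_true hA]
      linarith [ind_nonneg (∃ i i', i + i' ≤ 2 * ℓ ∧ (glue (dn B f x) f g)^[i] x =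
        (glue (dn B f x) f g)^[i'] y ∧ (glue (dn B f x) f g)^[i] x ∉ B),
        ind_nonneg (¬ (dep (dn B f x) g y ≤ ℓ ∧ rt (dn B f x) g y ∉ B))]
    · by_cases hC : dep (dn B f x) g y ≤ ℓ ∧ rt (dn B f x) g y ∉ B
      · have h4 := CN_good x y ℓ rfl ((hG4 V G B).1 x f hf) hg (not_lt.1 hA) hC.1 hC.2
        rw [ind_true h4]
        linarith [ind_nonneg (ℓ < dep B f x),
          ind_nonneg (¬ (dep (dn B f x) g y ≤ ℓ ∧ rt (dn B f x) g y ∉ B))]
      · rw [ind_true hC]
        linarith [ind_nonneg (∃ i i', i + i' ≤ 2 * ℓ ∧ (glue (dn B f x) f g)^[i] x =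
          (glue (dn B f x) f g)^[i'] y ∧ (glue (dn B f x) f g)^[i] x ∉ B),
          ind_nonneg (ℓ < dep B f x)]
  -- sum over the second vertex
  have second : ∀ (f : V → V) (x : V), ∑ y, EF G (dn B f x)
      (fun g => ind (¬ (dep (dn B f x) g y ≤ ℓ ∧ rt (dn B f x) g y ∉ B))) ≤
      (Fintype.card V : ℝ) * ind (Q K (dn B f x) m < κ) +
        (((j' * H' : ℕ) + 1) * (B.card : ℝ) + 2 * ((Fintype.card V : ℝ) * (1 / 2) ^ j')) := by
    intro f x
    by_cases hq : Q K (dn B f x) m < κ
    · rw [ind_true hq, mul_one]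
      have h1 : ∑ y, EF G (dn B f x)
          (fun g => ind (¬ (dep (dn B f x) g y ≤ ℓ ∧ rt (dn B f x) g y ∉ B))) ≤
          ∑ y : V, (1 : ℝ) := by
        refine Finset.sum_le_sum fun y _ => ?_
        refine le_trans (CN_EF_mono (F' := fun _ => 1) fun g _ => ind_le_one _) ?_
        rw [CN_EF_const hr.conn (hDne f x)]
      have h2 : ∑ y : V, (1 : ℝ) = (Fintype.card V : ℝ) := by simp
      have h3 : (0 : ℝ) ≤ ((j' * H' : ℕ) + 1) * (B.card : ℝ) +
          2 * ((Fintype.card V : ℝ) * (1 / 2) ^ j') := by positivity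
      linarith
    · rw [ind_false hq, mul_zero, zero_add]
      have hH' := hQ _ (not_lt.1 hq)
      have h1 := CN_sumdep hWI hK3 hr hp (hDne f x) hH' hj'
      have h2 := CN_sumroot hWI hK3 hr hp (hDne f x) B hH' j'
      have h3 : ∑ y, EF G (dn B f x)
          (fun g => ind (¬ (dep (dn B f x) g y ≤ ℓ ∧ rt (dn B f x) g y ∉ B))) ≤
          ∑ y, EF G (dn B f x) (fun g => ind (ℓ < dep (dn B f x) g y)) +
          ∑ y, EF G (dn B f x) (fun g => ind (rt (dn B f x) g y ∈ B)) := by
        rw [← Finset.sum_add_distrib]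
        refine Finset.sum_le_sum fun y _ => ?_
        rw [← CN_EF_add]
        refine CN_EF_mono fun g _ => ?_
        refine le_trans (ind_mono (q := ℓ < dep (dn B f x) g y ∨ rt (dn B f x) g y ∈ B) ?_)
          (ind_or_le _ _)
        intro h
        by_contra hc
        push Not at hc
        exact h ⟨hc.1, hc.2⟩
      linarith
  -- sum over both
  have third : ∀ x, ∑ y, (1 - EF G B (fun f => ind (∃ i i', i + i' ≤ 2 * ℓ ∧
      f^[i] x = f^[i'] y ∧ f^[i] x ∉ B))) ≤
      (Fintype.card V : ℝ) * EF G B (fun f => ind (ℓ < dep B f x)) +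
        ((Fintype.card V : ℝ) * EF G B (fun f => ind (Q K (dn B f x) m < κ)) +
        (((j' * H' : ℕ) + 1) * (B.card : ℝ) + 2 * ((Fintype.card V : ℝ) * (1 / 2) ^ j'))) := by
    intro x
    refine le_trans (Finset.sum_le_sum fun y _ => step x y) ?_
    rw [← CN_EF_sum, ← CN_EF_mul, ← CN_EF_mul]
    rw [← CN_EF_const hr.conn hB (((j' * H' : ℕ) + 1) * (B.card : ℝ) +
      2 * ((Fintype.card V : ℝ) * (1 / 2) ^ j')), ← CN_EF_add, ← CN_EF_add]
    refine CN_EF_mono fun f _ => ?_
    rw [Finset.sum_add_distrib]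
    have h1 : ∑ y : V, ind (ℓ < dep B f x) = (Fintype.card V : ℝ) * ind (ℓ < dep B f x) := by
      simp
    rw [h1]
    have h2 := second f x
    linarith
  refine le_trans (Finset.sum_le_sum fun x _ => third x) ?_
  rw [Finset.sum_add_distrib, Finset.sum_add_distrib, ← Finset.mul_sum, ← Finset.mul_sum]
  have h1 := CN_sumdep hWI hK3 hr hp hB hH hj
  have h2 : it G 1 (fun D => ind (Q K D m < κ)) B =
      (∑ x, EF G B (fun f => ind (Q K (dn B f x) m < κ))) / (Fintype.card V : ℝ) := rfl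
  rw [h2, Finset.sum_const, nsmul_eq_mul, Finset.card_univ]
  have h3 : (Fintype.card V : ℝ) ^ 2 *
      ((∑ x, EF G B (fun f => ind (Q K (dn B f x) m < κ))) / (Fintype.card V : ℝ) + (1 / 2) ^ j
        + ((j' * H' + 1) * B.card / Fintype.card V + 2 * (1 / 2) ^ j')) =
      (Fintype.card V : ℝ) * ((Fintype.card V : ℝ) * (1 / 2) ^ j) +
      ((Fintype.card V : ℝ) * (∑ x, EF G B (fun f => ind (Q K (dn B f x) m < κ))) +
        (Fintype.card V : ℝ) * ((j' * H' + 1) * (B.card : ℝ) +
          2 * ((Fintype.card V : ℝ) * (1 / 2) ^ j'))) := by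
    field_simp
    ring
  rw [h3]
  have h4 := mul_le_mul_of_nonneg_left h1 hn.le
  push_cast
  linarith

end Pool.Agent.helper66.FB
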